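import Pool.Agent.X234.SC.Main

/-!
# Reduction of all odd `m` to `m = 1`, and the final statement
-/

namespace Pool.Agent.X234.SC

open Finset

/-- telescoping -/
theorem telescope (Q : ℚ → ℚ) (N : ℕ) :
    ∑ k ∈ range (N + 1), (-1) ^ k * ((4 * (k : ℚ) - 1 - 1) ^ 3 * Q (4 * (k : ℚ) - 1 + 4)
      + (4 * (k : ℚ) - 1 + 1) ^ 3 * Q (4 * (k : ℚ) - 1)) * t k ^ 3
    = -(-1) ^ N * 8 * (cb N / 4 ^ N) ^ 3 * Q (4 * (N : ℚ) - 1 + 4) := by
  induction N with
  | zero =>
    simp [t, cb_zero]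
    ring
  | succ N ih =>
    rw [sum_range_succ, ih]
    have ht : t (N + 1) = -(cb N) / (4 ^ N * (2 * (N + 1))) := by
      unfold t
      rw [cb_succ]
      have hn : ((N : ℚ) + 1) ≠ 0 := by positivity
      have hn1 : (2 * (N : ℚ) + 1) ≠ 0 := by positivity
      push_cast
      rw [show (2 * ((N : ℚ) + 1) - 1) = 2 * N + 1 by ring, pow_succ]
      have h4 : (4 : ℚ) ^ N ≠ 0 := by positivity
      field_simp
      ring
    have e1 : (4 * ((N + 1 : ℕ) : ℚ) - 1) = 4 * (N : ℚ) - 1 + 4 := by push_cast; ring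
    rw [ht, cb_succ, e1]
    set A := Q (4 * (N : ℚ) - 1 + 4) with hA
    set B := Q (4 * (N : ℚ) - 1 + 4 + 4) with hB
    have hn : ((N : ℚ) + 1) ≠ 0 := by positivity
    rw [pow_succ (4 : ℚ), pow_succ (-1 : ℚ)]
    have h4 : (4 : ℚ) ^ N ≠ 0 := by positivity
    field_simp
    ring

/-- the polynomial `(X - 1)^3 (X + 2)^(2j)` -/
noncomputable def FF (j : ℕ) : Polynomial ℤ :=
  (Polynomial.X - Polynomial.C 1) ^ 3 * (Polynomial.X + Polynomial.C 2) ^ (2 * j)

theorem FF_monic (j : ℕ) : (FF j).Monic :=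
  ((Polynomial.monic_X_sub_C 1).pow 3).mul ((Polynomial.monic_X_add_C 2).pow (2 * j))

theorem FF_natDegree (j : ℕ) : (FF j).natDegree = 2 * j + 3 := by
  unfold FF
  rw [((Polynomial.monic_X_sub_C (1 : ℤ)).pow 3).natDegree_mul
    ((Polynomial.monic_X_add_C (2 : ℤ)).pow (2 * j)), (Polynomial.monic_X_sub_C (1 : ℤ)).natDegree_pow,
    (Polynomial.monic_X_add_C (2 : ℤ)).natDegree_pow, Polynomial.natDegree_X_sub_C,
    Polynomial.natDegree_X_add_C]
  ring

theorem FF_coeff (j : ℕ) : (FF j).coeff (2 * j + 3) = 1 := by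
  have := (FF_monic j).coeff_natDegree
  rwa [FF_natDegree] at this

theorem FF_aeval (j : ℕ) (x : ℚ) : Polynomial.aeval x (FF j) = (x - 1) ^ 3 * (x + 2) ^ (2 * j) := by
  unfold FF
  rw [map_mul, map_pow, map_pow, map_sub, map_add, Polynomial.aeval_X, Polynomial.aeval_C,
    Polynomial.aeval_C]
  norm_num

theorem FF_sum (j : ℕ) (x : ℚ) : (x - 1) ^ 3 * (x + 2) ^ (2 * j)
    = ∑ i ∈ range (2 * j + 4), ((FF j).coeff i : ℚ) * x ^ i := by
  rw [← FF_aeval, Polynomial.aeval_eq_sum_range' (n := 2 * j + 4) (by rw [FF_natDegree]; omega)]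
  apply sum_congr rfl
  intro i _
  rw [zsmul_eq_mul]

theorem FF_odd (j : ℕ) (x : ℚ) : (x - 1) ^ 3 * (x + 4 - 2) ^ (2 * j) + (x + 1) ^ 3 * (x - 2) ^ (2 * j)
    = ∑ i ∈ range (2 * j + 4), (if Odd i then 2 * ((FF j).coeff i : ℚ) * x ^ i else 0) := by
  have h1 := FF_sum j x
  have h2 := FF_sum j (-x)
  have e1 : (x + 4 - 2) = x + 2 := by ring
  have e2 : (-x - 1) ^ 3 * (-x + 2) ^ (2 * j) = -((x + 1) ^ 3 * (x - 2) ^ (2 * j)) := by
    have : (-x + 2) ^ (2 * j) = (x - 2) ^ (2 * j) := by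
      rw [pow_mul, pow_mul]; congr 1; ring
    rw [this]; ring
  rw [e2] at h2
  have e3 : (x - 1) ^ 3 * (x + 2) ^ (2 * j) + (x + 1) ^ 3 * (x - 2) ^ (2 * j)
      = ∑ i ∈ range (2 * j + 4), ((FF j).coeff i : ℚ) * x ^ i
        - ∑ i ∈ range (2 * j + 4), ((FF j).coeff i : ℚ) * (-x) ^ i := by
    rw [← h1, ← h2]; ring
  rw [e1, e3, ← sum_sub_distrib]
  apply sum_congr rfl
  intro i _
  split_ifs with h
  · rw [h.neg_pow]; ring
  · rw [Nat.not_odd_iff_even] at h
    rw [h.neg_pow]; ring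

/-- the relation between the sums -/
theorem S_rel (j N : ℕ) : ∑ i ∈ range (2 * j + 4),
    (if Odd i then 2 * ((FF j).coeff i : ℚ) * S i N else 0)
    = -(-1) ^ N * 8 * (cb N / 4 ^ N) ^ 3 * (4 * (N : ℚ) + 1) ^ (2 * j) := by
  have h := telescope (fun y => (y - 2) ^ (2 * j)) N
  have e : 4 * (N : ℚ) - 1 + 4 - 2 = 4 * N + 1 := by ring
  rw [e] at h
  rw [← h]
  have h2 : ∀ k : ℕ, (-1 : ℚ) ^ k * ((4 * (k : ℚ) - 1 - 1) ^ 3 * (4 * (k : ℚ) - 1 + 4 - 2) ^ (2 * j)
      + (4 * (k : ℚ) - 1 + 1) ^ 3 * (4 * (k : ℚ) - 1 - 2) ^ (2 * j)) * t k ^ 3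
      = ∑ i ∈ range (2 * j + 4), (if Odd i then 2 * ((FF j).coeff i : ℚ) *
        ((-1) ^ k * (4 * (k : ℚ) - 1) ^ i * t k ^ 3) else 0) := by
    intro k
    rw [FF_odd, mul_sum, sum_mul]
    apply sum_congr rfl
    intro i _
    split_ifs
    · ring
    · ring
  rw [sum_congr rfl (fun k _ => h2 k), sum_comm]
  apply sum_congr rfl
  intro i _
  split_ifs with hi
  · rw [S_eq, mul_sum]
  · rw [sum_const_zero]

/-- the reduction -/
theorem reduction (m : ℕ) : Odd m → ∃ e : ℤ, ∀ (N p : ℕ) [Fact p.Prime], p ≠ 2 → ∀ r : ℕ, 1 ≤ r →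
    padicNorm p (cb N) ≤ dl p ^ r → padicNorm p (S m N - e * S 1 N) ≤ dl p ^ (r + 2) := by
  induction m using Nat.strong_induction_on with
  | _ m ih =>
    intro hm
    rcases Nat.lt_or_ge m 3 with hlt | hge
    · have : m = 1 := by
        obtain ⟨k, hk⟩ := hm; omega
      subst this
      refine ⟨1, fun N p _ _ r _ _ => ?_⟩
      rw [Int.cast_one, one_mul, sub_self, padicNorm.zero]
      exact pow_nonneg dl_pos.le _
    · obtain ⟨j, rfl⟩ : ∃ j, m = 2 * j + 3 := by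
        obtain ⟨k, hk⟩ := hm; exact ⟨k - 1, by omega⟩
      have ih' : ∀ i, ∃ e : ℤ, i < 2 * j + 3 → Odd i → ∀ (N p : ℕ) [Fact p.Prime], p ≠ 2 →
          ∀ r : ℕ, 1 ≤ r → padicNorm p (cb N) ≤ dl p ^ r →
          padicNorm p (S i N - e * S 1 N) ≤ dl p ^ (r + 2) := by
        intro i
        by_cases h : i < 2 * j + 3 ∧ Odd i
        · obtain ⟨e, he⟩ := ih i h.1 h.2
          exact ⟨e, fun _ _ => he⟩
        · exact ⟨0, fun h1 h2 => absurd ⟨h1, h2⟩ h⟩
      choose e he using ih'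
      refine ⟨-∑ i ∈ range (2 * j + 3), (if Odd i then (FF j).coeff i * e i else 0), ?_⟩
      intro N p _ hp2 r hr hN
      have hrel := S_rel j N
      rw [sum_range_succ, if_pos (by exact ⟨j + 1, by ring⟩ : Odd (2 * j + 3)), FF_coeff] at hrel
      -- solve for `S m N`
      have hS : S (2 * j + 3) N = -(-1) ^ N * 4 * (cb N / 4 ^ N) ^ 3 * (4 * (N : ℚ) + 1) ^ (2 * j)
          - ∑ i ∈ range (2 * j + 3), (if Odd i then ((FF j).coeff i : ℚ) * S i N else 0) := by
        have h1 : ∑ i ∈ range (2 * j + 3), (if Odd i then 2 * ((FF j).coeff i : ℚ) * S i N else 0)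
            = 2 * ∑ i ∈ range (2 * j + 3), (if Odd i then ((FF j).coeff i : ℚ) * S i N else 0) := by
          rw [mul_sum]
          apply sum_congr rfl
          intro i _
          split_ifs
          · ring
          · ring
        rw [h1] at hrel
        push_cast at hrel
        linarith
      have hdiff : S (2 * j + 3) N - ((-∑ i ∈ range (2 * j + 3),
          (if Odd i then (FF j).coeff i * e i else 0) : ℤ) : ℚ) * S 1 N
          = -(-1) ^ N * 4 * (cb N / 4 ^ N) ^ 3 * (4 * (N : ℚ) + 1) ^ (2 * j)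
          - ∑ i ∈ range (2 * j + 3), (if Odd i then ((FF j).coeff i : ℚ) * (S i N - e i * S 1 N)
            else 0) := by
        rw [hS]
        push_cast
        have h1 : ∀ i ∈ range (2 * j + 3), (if Odd i then ((FF j).coeff i : ℚ) * (S i N - e i * S 1 N)
            else 0) = (if Odd i then ((FF j).coeff i : ℚ) * S i N else 0)
            - (if Odd i then ((FF j).coeff i : ℚ) * (e i : ℚ) else 0) * S 1 N := by
          intro i _
          split_ifs
          · ring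
          · ring
        rw [sum_congr rfl h1, sum_sub_distrib, ← sum_mul]
        ring
      rw [hdiff]
      apply norm_sub_le
      · simp only [padicNorm.mul, padicNorm.div, padicNorm.neg, padicNorm.one, norm_pow,
          norm_four hp2, one_pow, mul_one, one_mul, div_one]
        have h1 : padicNorm p (4 * (N : ℚ) + 1) ≤ 1 := by
          have := norm_nat_le (p := p) (4 * N + 1)
          push_cast at this
          exact this
        have h2 : padicNorm p (4 * (N : ℚ) + 1) ^ (2 * j) ≤ 1 :=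
          pow_le_one₀ (padicNorm.nonneg _) h1
        have h3 : padicNorm p (cb N) ^ 3 ≤ (dl p ^ r) ^ 3 :=
          pow_le_pow_left₀ (padicNorm.nonneg _) hN 3
        calc padicNorm p (cb N) ^ 3 * padicNorm p (4 * (N : ℚ) + 1) ^ (2 * j)
            ≤ (dl p ^ r) ^ 3 * 1 := mul_le_mul h3 h2 (pow_nonneg (padicNorm.nonneg _) _)
              (pow_nonneg (pow_nonneg dl_pos.le _) _)
          _ = dl p ^ (r * 3) := by rw [mul_one, ← pow_mul]
          _ ≤ dl p ^ (r + 2) := pow_le_pow_of_le_one dl_pos.le dl_le_one (by omega)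
      · apply padicNorm.sum_le' _ (pow_nonneg dl_pos.le _)
        intro i hi
        rw [mem_range] at hi
        split_ifs with hodd
        · rw [padicNorm.mul]
          have h1 := he i hi hodd N p hp2 r hr hN
          calc padicNorm p ((FF j).coeff i : ℚ) * padicNorm p (S i N - e i * S 1 N)
              ≤ 1 * dl p ^ (r + 2) := mul_le_mul (norm_int_le _) h1 (padicNorm.nonneg _) zero_le_one
            _ = dl p ^ (r + 2) := one_mul _
        · rw [padicNorm.zero]; exact pow_nonneg dl_pos.le _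

theorem congr_of_norm {p n : ℕ} [hp : Fact p.Prime] {x y : ℚ}
    (h : padicNorm p (x - y) ≤ dl p ^ n) : CongrMod p n x y := by
  by_cases h0 : x - y = 0
  · exact Or.inl h0
  · right
    unfold padicNorm at h
    rw [if_neg h0] at h
    unfold dl at h
    rw [inv_pow, ← zpow_natCast, ← zpow_neg] at h
    have hp1 : (1 : ℚ) < p := by exact_mod_cast hp.out.one_lt
    have := (zpow_le_zpow_iff_right₀ hp1).mp h
    omega

theorem sign_eq {p r J : ℕ} (hodd : Odd p) (hq : p ^ r = 2 * J + 1) :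
    (-1 : ℚ) ^ ((p - 1) * r / 2) = (-1) ^ J := by
  obtain ⟨m, rfl⟩ := hodd
  have e : (2 * m + 1 - 1) * r / 2 = m * r := by
    rw [Nat.add_sub_cancel, mul_assoc]; omega
  rw [e]
  induction r generalizing J with
  | zero =>
    have : J = 0 := by rw [pow_zero] at hq; omega
    rw [this]; simp
  | succ r ih =>
    have hodd' : Odd ((2 * m + 1) ^ r) := Odd.pow ⟨m, rfl⟩
    obtain ⟨J', hJ'⟩ := hodd'
    have h1 := ih hJ' (by rw [Nat.add_sub_cancel, mul_assoc]; omega)
    have h2 : J = 2 * (m * J') + m + J' := by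
      rw [pow_succ, hJ'] at hq
      have : (2 * J' + 1) * (2 * m + 1) = 2 * (2 * (m * J') + m + J') + 1 := by ring
      omega
    rw [h2, mul_add, mul_one, pow_add, h1, pow_add, pow_add, pow_mul]
    norm_num
    ring

theorem final (m : ℕ) (hm : Odd m) : ∃ c : ℤ, ∀ p : ℕ, p.Prime → p ≠ 2 → ∀ r : ℕ, 1 ≤ r →
    CongrMod p (r + 2) (S m ((p ^ r + 1) / 2)) (c * (p : ℚ) ^ r * (-1) ^ ((p - 1) * r / 2)) ∧
    CongrMod p (r + 2) (S m (p ^ r - 1)) (c * (p : ℚ) ^ r * (-1) ^ ((p - 1) * r / 2)) := by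
  obtain ⟨e, he⟩ := reduction m hm
  refine ⟨-e, fun p hp hp2 r hr => ?_⟩
  have : Fact p.Prime := ⟨hp⟩
  have hodd : Odd p := hp.odd_of_ne_two hp2
  obtain ⟨J, hJ⟩ : Odd (p ^ r) := hodd.pow
  have e0 : (p ^ r + 1) / 2 = J + 1 := by omega
  have e1 : p ^ r - 1 = 2 * J := by omega
  rw [e0, e1, sign_eq hodd hJ]
  have key : ∀ N : ℕ, (N = J + 1 ∨ N = 2 * J) →
      padicNorm p (S m N - ((-e : ℤ) : ℚ) * (p : ℚ) ^ r * (-1) ^ J) ≤ dl p ^ (r + 2) := by
    intro N hN
    have hcb : padicNorm p (cb N) ≤ dl p ^ r := by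
      rcases hN with h | h
      · rw [h]; exact norm_cb_N0 hp2 hr hJ
      · rw [h]; exact norm_cb_N1 hp2 hr hJ
    have h1 := he N p hp2 r hr hcb
    have h2 := case_one (p := p) hp2 hr hJ hN
    have e2 : S m N - ((-e : ℤ) : ℚ) * (p : ℚ) ^ r * (-1) ^ J
        = (S m N - e * S 1 N) + e * (S 1 N + ((p ^ r : ℕ) : ℚ) * (-1) ^ J) := by
      push_cast; ring
    rw [e2]
    apply norm_add_le h1
    rw [padicNorm.mul]
    calc padicNorm p (e : ℚ) * padicNorm p (S 1 N + ((p ^ r : ℕ) : ℚ) * (-1) ^ J)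
        ≤ 1 * dl p ^ (r + 2) := mul_le_mul (norm_int_le _) h2 (padicNorm.nonneg _) zero_le_one
      _ = dl p ^ (r + 2) := one_mul _
  exact ⟨congr_of_norm (key _ (Or.inl rfl)), congr_of_norm (key _ (Or.inr rfl))⟩

end Pool.Agent.X234.SC
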