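import Pool.Agent.X234.SC.Small

/-!
# The main term and the reduction to `m = 1`
-/

namespace Pool.Agent.X234.SC

open Finset

section
variable {p : ℕ} [hp : Fact p.Prime]

theorem norm_add_le {x y b : ℚ} (hx : padicNorm p x ≤ b) (hy : padicNorm p y ≤ b) :
    padicNorm p (x + y) ≤ b := padicNorm.nonarchimedean.trans (max_le hx hy)

theorem norm_sub_le {x y b : ℚ} (hx : padicNorm p x ≤ b) (hy : padicNorm p y ≤ b) :
    padicNorm p (x - y) ≤ b := padicNorm.sub.trans (max_le hx hy)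

theorem cong_mul {a a' b b' e : ℚ} (ha : padicNorm p a ≤ 1) (hb' : padicNorm p b' ≤ 1)
    (h1 : padicNorm p (a - a') ≤ e) (h2 : padicNorm p (b - b') ≤ e) :
    padicNorm p (a * b - a' * b') ≤ e := by
  have e1 : a * b - a' * b' = a * (b - b') + (a - a') * b' := by ring
  rw [e1]
  apply norm_add_le
  · rw [padicNorm.mul]
    calc padicNorm p a * padicNorm p (b - b') ≤ 1 * e :=
          mul_le_mul ha h2 (padicNorm.nonneg _) zero_le_one
      _ = e := one_mul _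
  · rw [padicNorm.mul]
    have he : 0 ≤ e := (padicNorm.nonneg _).trans h1
    calc padicNorm p (a - a') * padicNorm p b' ≤ e * 1 :=
          mul_le_mul h1 hb' (padicNorm.nonneg _) he
      _ = e := mul_one _

theorem norm_ge_of_lt {r m : ℕ} (hm : 0 < m) (h : m < p ^ r) :
    dl p ^ (r - 1) ≤ padicNorm p (m : ℚ) := by
  have hne : ((m : ℕ) : ℚ) ≠ 0 := by exact_mod_cast hm.ne'
  unfold padicNorm
  rw [if_neg hne, padicValRat.of_nat]
  have h1 : p ^ padicValNat p m ∣ m := pow_padicValNat_dvd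
  have h2 : p ^ padicValNat p m < p ^ r := (Nat.le_of_dvd hm h1).trans_lt h
  have h3 : padicValNat p m < r := (Nat.pow_lt_pow_iff_right hp.out.one_lt).mp h2
  rw [zpow_neg, zpow_natCast]
  have hp1 : (1 : ℚ) ≤ p := by exact_mod_cast hp.out.one_lt.le
  unfold dl
  rw [inv_pow]
  have hp0 : (0 : ℚ) < p := by exact_mod_cast hp.out.pos
  apply inv_anti₀ (by positivity)
  exact pow_le_pow_right₀ hp1 (by omega)

theorem norm_q_div {r m : ℕ} (hr : 1 ≤ r) (hm : 0 < m) (h : m < p ^ r) :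
    padicNorm p (((p ^ r : ℕ) : ℚ) / m) ≤ dl p := by
  have h1 := norm_ge_of_lt hm h
  have hpos : 0 < padicNorm p (m : ℚ) := lt_of_lt_of_le (pow_pos dl_pos _) h1
  rw [padicNorm.div, norm_q, div_le_iff₀ hpos]
  calc dl p ^ r = dl p * dl p ^ (r - 1) := by rw [← pow_succ']; congr 1; omega
    _ ≤ dl p * padicNorm p (m : ℚ) := mul_le_mul_of_nonneg_left h1 dl_pos.le

end

/-- `∏ (1 - q/i)` -/
def P1 (q : ℚ) (m : ℕ) : ℚ := ∏ i ∈ range m, (1 - q / (i + 1))

/-- `∏ (1 - q/(2i))` -/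
def P2 (q : ℚ) (m : ℕ) : ℚ := ∏ i ∈ range m, (1 - q / (i + 1) / 2)

theorem choose_eq_P1 (J m : ℕ) (hm : m ≤ 2 * J) :
    ((2 * J).choose m : ℚ) = (-1) ^ m * P1 (2 * J + 1) m := by
  induction m with
  | zero => simp [P1]
  | succ m ih =>
    have h := Nat.choose_succ_right_eq (2 * J) m
    have h' := congrArg (Nat.cast (R := ℚ)) h
    push_cast [Nat.cast_sub (show m ≤ 2 * J by omega)] at h'
    have hm1 : ((m : ℚ) + 1) ≠ 0 := by positivity
    have e : ((2 * J).choose (m + 1) : ℚ) = ((2 * J).choose m : ℚ) * (2 * J - m) / (m + 1) := by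
      rw [eq_div_iff hm1]; exact h'
    rw [e, ih (by omega)]
    unfold P1
    rw [prod_range_succ, pow_succ]
    field_simp
    ring

theorem cb_eq_prod (m : ℕ) : cb m = 4 ^ m * ((∏ i ∈ range m, (2 * (i : ℚ) + 1)) /
    ∏ i ∈ range m, (2 * ((i : ℚ) + 1))) := by
  induction m with
  | zero => simp [cb_zero]
  | succ m ih =>
    have hd : ∏ i ∈ range m, (2 * ((i : ℚ) + 1)) ≠ 0 :=
      prod_ne_zero_iff.mpr (fun i _ => by positivity)
    rw [cb_succ, ih, prod_range_succ, prod_range_succ, pow_succ]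
    field_simp
    norm_num

theorem cb_eq_P2 (J : ℕ) : cb J = (-4) ^ J * P2 (2 * J + 1) J := by
  rw [cb_eq_prod]
  have h1 : ∏ i ∈ range J, (2 * (i : ℚ) + 1) = ∏ i ∈ range J, ((2 * J + 1) - 2 * ((i : ℚ) + 1)) := by
    rw [← prod_range_reflect]
    apply prod_congr rfl
    intro i hi
    rw [mem_range] at hi
    rw [show J - 1 - i = J - (1 + i) by omega, Nat.cast_sub (by omega)]
    push_cast; ring
  have h2 : (∏ i ∈ range J, (2 * (i : ℚ) + 1)) / ∏ i ∈ range J, (2 * ((i : ℚ) + 1))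
      = (-1) ^ J * P2 (2 * J + 1) J := by
    rw [h1, ← prod_div_distrib]
    unfold P2
    have h3 : ((-1 : ℚ)) ^ J = ∏ _i ∈ range J, (-1 : ℚ) := by rw [prod_const, card_range]
    rw [h3, ← prod_mul_distrib]
    apply prod_congr rfl
    intro i _
    have : ((i : ℚ) + 1) ≠ 0 := by positivity
    field_simp
    ring
  rw [h2, show (-4 : ℚ) = 4 * (-1) by norm_num, mul_pow]
  ring

section
variable {p : ℕ} [hp : Fact p.Prime] {r J : ℕ}

theorem P_bounds (hp2 : p ≠ 2) (hr : 1 ≤ r) (m : ℕ) (hm : m < p ^ r) :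
    padicNorm p (P1 ((p ^ r : ℕ) : ℚ) m) ≤ 1 ∧ padicNorm p (P2 ((p ^ r : ℕ) : ℚ) m) ≤ 1 ∧
    padicNorm p (P1 ((p ^ r : ℕ) : ℚ) m - P2 ((p ^ r : ℕ) : ℚ) m ^ 2) ≤ dl p ^ 2 := by
  induction m with
  | zero =>
    simp [P1, P2]
  | succ m ih =>
    obtain ⟨i1, i2, i3⟩ := ih (by omega)
    have hy : padicNorm p (((p ^ r : ℕ) : ℚ) / ((m : ℚ) + 1)) ≤ dl p := by
      have := norm_q_div (p := p) (m := m + 1) hr (by omega) hm
      push_cast at this ⊢
      exact this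
    simp only [P1, P2] at i1 i2 i3 ⊢
    rw [prod_range_succ, prod_range_succ]
    set y : ℚ := ((p ^ r : ℕ) : ℚ) / ((m : ℚ) + 1) with hyd
    have hone : padicNorm p (1 : ℚ) ≤ 1 := by rw [padicNorm.one]
    have f1 : padicNorm p (1 - y) ≤ 1 := norm_sub_le hone (hy.trans dl_le_one)
    have hy2 : padicNorm p (y / 2) ≤ dl p := by rw [padicNorm.div, norm_two hp2, div_one]; exact hy
    have f2 : padicNorm p (1 - y / 2) ≤ 1 := norm_sub_le hone (hy2.trans dl_le_one)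
    have f3 : padicNorm p ((1 - y) - (1 - y / 2) ^ 2) ≤ dl p ^ 2 := by
      have e : (1 - y) - (1 - y / 2) ^ 2 = -((y / 2) ^ 2) := by ring
      rw [e, padicNorm.neg, norm_pow]
      exact pow_le_pow_left₀ (padicNorm.nonneg _) hy2 2
    refine ⟨?_, ?_, ?_⟩
    · rw [padicNorm.mul]; exact mul_le_one₀ i1 (padicNorm.nonneg _) f1
    · rw [padicNorm.mul]; exact mul_le_one₀ i2 (padicNorm.nonneg _) f2
    · rw [mul_pow]
      apply cong_mul i1 _ i3 f3
      rw [norm_pow]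
      exact pow_le_one₀ (padicNorm.nonneg _) f2

/-- `C(q-1,(q-1)/2) ≡ (-1)^J 16^J (mod p^2)` -/
theorem cb_J_cong (hp2 : p ≠ 2) (hr : 1 ≤ r) (hq : p ^ r = 2 * J + 1) :
    padicNorm p (cb J / 16 ^ J - (-1) ^ J) ≤ dl p ^ 2 := by
  obtain ⟨i1, i2, i3⟩ := P_bounds (p := p) hp2 hr J (by omega)
  have hqq : ((p ^ r : ℕ) : ℚ) = 2 * J + 1 := by rw [hq]; push_cast; ring
  rw [hqq] at i1 i2 i3
  have e1 : cb J = (-1) ^ J * P1 (2 * J + 1) J := by
    unfold cb
    rw [Nat.centralBinom_eq_two_mul_choose]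
    exact choose_eq_P1 J J (by omega)
  have e2 := cb_eq_P2 J
  set u := P2 (2 * (J : ℚ) + 1) J with hu
  have e3 : P1 (2 * J + 1) J = 4 ^ J * u := by
    have h1 : ((-1 : ℚ)) ^ J * P1 (2 * J + 1) J = (-4) ^ J * u := by rw [← e1, e2]
    have h2 : ((-4 : ℚ)) ^ J = (-1) ^ J * 4 ^ J := by rw [← mul_pow]; norm_num
    rw [h2, mul_assoc] at h1
    exact mul_left_cancel₀ (pow_ne_zero _ (by norm_num)) h1
  have hun : padicNorm p u = 1 := by
    have h := congrArg (padicNorm p) e2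
    rw [norm_cb_J hr hq, padicNorm.mul, norm_pow, padicNorm.neg, norm_four hp2, one_pow,
      one_mul] at h
    exact h.symm
  have h4 : padicNorm p (4 ^ J - u) ≤ dl p ^ 2 := by
    rw [e3, show 4 ^ J * u - u ^ 2 = u * (4 ^ J - u) by ring, padicNorm.mul, hun, one_mul] at i3
    exact i3
  have h16 : (16 : ℚ) ^ J = 4 ^ J * 4 ^ J := by rw [← mul_pow]; norm_num
  have h44 : ((-4 : ℚ)) ^ J = (-1) ^ J * 4 ^ J := by rw [← mul_pow]; norm_num
  have e5 : cb J / 16 ^ J - (-1) ^ J = (-(-1) ^ J) * (4 ^ J - u) / 4 ^ J := by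
    rw [e2, h16, h44]
    have : (4 : ℚ) ^ J ≠ 0 := by positivity
    field_simp
    ring
  rw [e5, padicNorm.div, padicNorm.mul, padicNorm.neg, norm_neg_one_pow, norm_pow, norm_four hp2,
    one_pow, div_one, one_mul]
  exact h4

/-- `C(2q, q) / 2 ≡ 1 (mod p^2)` -/
theorem cb_q_cong (hp2 : p ≠ 2) (hq : p ^ r = 2 * J + 1) :
    padicNorm p (cb (2 * J + 1) / 2 - 1) ≤ dl p ^ 2 := by
  have h := Nat.sum_range_choose_sq (2 * J + 1)
  rw [sum_range_succ, sum_range_succ'] at h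
  have h' : cb (2 * J + 1) - 2 = ∑ i ∈ range (2 * J), (((2 * J + 1).choose (i + 1) : ℚ)) ^ 2 := by
    unfold cb
    rw [Nat.centralBinom_eq_two_mul_choose, ← h]
    push_cast
    rw [Nat.choose_zero_right, Nat.choose_self]
    push_cast
    ring
  have e : cb (2 * J + 1) / 2 - 1 = (cb (2 * J + 1) - 2) / 2 := by ring
  rw [e, padicNorm.div, norm_two hp2, div_one, h']
  apply padicNorm.sum_le'
  · intro i hi
    rw [mem_range] at hi
    rw [norm_pow]
    apply pow_le_pow_left₀ (padicNorm.nonneg _)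
    apply norm_dvd
    rw [← hq]
    exact hp.out.dvd_choose_pow (by omega) (by omega)
  · exact pow_nonneg dl_pos.le 2

theorem f_main_eq (J : ℕ) : f (J + 1) J = -(2 * J + 1) *
    ((2 * (2 * (J : ℚ) + 1) + 1) / ((2 * J + 1) + 1) ^ 2 * (cb (2 * J + 1) / 2) *
      (cb J / 16 ^ J)) := by
  unfold f t
  rw [show J + 1 + J = 2 * J + 1 by ring, Nat.choose_succ_self_right, cb_succ]
  have s1 : (-1 : ℚ) ^ (2 * J + 1) = -1 := by rw [pow_succ, pow_mul]; norm_num
  rw [s1]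
  push_cast
  have h16 : (16 : ℚ) ^ J = 4 ^ J * 4 ^ J := by rw [← mul_pow]; norm_num
  rw [h16, pow_succ]
  have h4 : (4 : ℚ) ^ J ≠ 0 := by positivity
  have hJ : ((J : ℚ) + 1) ≠ 0 := by positivity
  have hJ2 : (2 * (J : ℚ) + 1) ≠ 0 := by positivity
  have ho'' : (2 * ((J : ℚ) + 1) - 1) = 2 * J + 1 := by ring
  rw [ho'', show (2 * (J : ℚ) + 1) + 1 = 2 * (J + 1) by ring]
  have hc := cb_ne J
  field_simp
  ring

theorem f_main_cong (hp2 : p ≠ 2) (hr : 1 ≤ r) (hq : p ^ r = 2 * J + 1) :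
    padicNorm p (f (J + 1) J + ((p ^ r : ℕ) : ℚ) * (-1) ^ J) ≤ dl p ^ (r + 2) := by
  have hqq : ((p ^ r : ℕ) : ℚ) = 2 * J + 1 := by rw [hq]; push_cast; ring
  have hq1 : padicNorm p ((2 * (J : ℚ) + 1) + 1) = 1 := by
    have := norm_q_add_one (p := p) hr
    rw [Nat.cast_add, hqq] at this
    exact_mod_cast this
  have hqn : padicNorm p (2 * (J : ℚ) + 1) = dl p ^ r := by rw [← hqq, norm_q]
  have hA : padicNorm p ((2 * (2 * (J : ℚ) + 1) + 1) / ((2 * J + 1) + 1) ^ 2 - 1) ≤ dl p ^ 2 := by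
    have hne : ((2 * (J : ℚ) + 1) + 1) ≠ 0 := by positivity
    have e : (2 * (2 * (J : ℚ) + 1) + 1) / ((2 * J + 1) + 1) ^ 2 - 1
        = -((2 * J + 1) ^ 2 / ((2 * J + 1) + 1) ^ 2) := by
      field_simp
      ring
    rw [e, padicNorm.neg, padicNorm.div, norm_pow, norm_pow, hq1, hqn, one_pow, div_one, ← pow_mul]
    exact pow_le_pow_of_le_one dl_pos.le dl_le_one (by omega)
  have hA1 : padicNorm p ((2 * (2 * (J : ℚ) + 1) + 1) / ((2 * J + 1) + 1) ^ 2) ≤ 1 := by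
    rw [padicNorm.div, norm_pow, hq1, one_pow, div_one]
    have := norm_nat_le (p := p) (2 * (2 * J + 1) + 1)
    push_cast at this
    exact this
  have hB := cb_q_cong (p := p) hp2 hq
  have hC := cb_J_cong (p := p) hp2 hr hq
  have hAB := cong_mul (p := p) hA1 (by rw [padicNorm.one] : padicNorm p (1 : ℚ) ≤ 1) hA hB
  have hAB1 : padicNorm p ((2 * (2 * (J : ℚ) + 1) + 1) / ((2 * J + 1) + 1) ^ 2
      * (cb (2 * J + 1) / 2)) ≤ 1 := by
    rw [padicNorm.mul]
    apply mul_le_one₀ hA1 (padicNorm.nonneg _)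
    rw [padicNorm.div, norm_two hp2, div_one]
    exact norm_cb_le _
  have hABC := cong_mul (p := p) hAB1 (norm_neg_one_pow J).le hAB hC
  rw [f_main_eq, hqq]
  have e : -(2 * (J : ℚ) + 1) * ((2 * (2 * (J : ℚ) + 1) + 1) / ((2 * J + 1) + 1) ^ 2 *
      (cb (2 * J + 1) / 2) * (cb J / 16 ^ J)) + (2 * J + 1) * (-1) ^ J
      = (-(2 * J + 1)) * ((2 * (2 * (J : ℚ) + 1) + 1) / ((2 * J + 1) + 1) ^ 2 *
      (cb (2 * J + 1) / 2) * (cb J / 16 ^ J) - 1 * 1 * (-1) ^ J) := by ring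
  rw [e, padicNorm.mul, padicNorm.neg, hqn, pow_add]
  exact mul_le_mul_of_nonneg_left hABC (pow_nonneg dl_pos.le _)

/-- the case `m = 1` -/
theorem case_one (hp2 : p ≠ 2) (hr : 1 ≤ r) (hq : p ^ r = 2 * J + 1) {N : ℕ}
    (hN : N = J + 1 ∨ N = 2 * J) :
    padicNorm p (S 1 N + ((p ^ r : ℕ) : ℚ) * (-1) ^ J) ≤ dl p ^ (r + 2) := by
  have hJ : 1 ≤ J := by
    rcases Nat.eq_zero_or_pos J with h | h
    · subst h
      have h1 : 1 < p ^ r := Nat.one_lt_pow (by omega) hp.out.one_lt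
      omega
    · exact h
  have hS : S 1 N = ∑ n ∈ range (N + 1), (-1) ^ n * (4 * (n : ℚ) - 1) * t n ^ 3 := by
    rw [S_eq]; simp only [pow_one]
  rw [hS, wz_sum N J]
  have hmem : J + 1 ∈ range (N + 1) := by rw [mem_range]; omega
  rw [← add_sum_erase _ _ hmem]
  have hnn : (0 : ℚ) ≤ dl p ^ (r + 2) := pow_nonneg dl_pos.le _
  have h1 : padicNorm p (∑ n ∈ (range (N + 1)).erase (J + 1), f n J) ≤ dl p ^ (r + 2) := by
    apply padicNorm.sum_le' _ hnn
    intro n hn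
    rw [mem_erase, mem_range] at hn
    rcases Nat.lt_or_ge (J + 1) n with h | h
    · exact norm_f_le hp2 hr hq h (by omega)
    · have : f n J = 0 := by
        unfold f
        rcases Nat.lt_or_ge n J with h' | h'
        · rw [Nat.choose_eq_zero_of_lt (show n + J < 2 * J by omega)]; simp
        · have : n = J := by omega
          rw [this]; simp
      rw [this, padicNorm.zero]
      exact hnn
  have h2 : padicNorm p (∑ j ∈ range (J + 1), g N j) ≤ dl p ^ (r + 2) := by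
    apply padicNorm.sum_le' _ hnn
    intro j hj
    rw [mem_range] at hj
    rcases hN with h | h
    · rw [h]; exact norm_g_N0 hp2 hr hq (by omega)
    · rw [h]; exact norm_g_N1 hp2 hr hq (by omega)
  have h3 := f_main_cong (p := p) hp2 hr hq
  have e : f (J + 1) J + ∑ n ∈ (range (N + 1)).erase (J + 1), f n J + ∑ j ∈ range (J + 1), g N j
      + ((p ^ r : ℕ) : ℚ) * (-1) ^ J = (f (J + 1) J + ((p ^ r : ℕ) : ℚ) * (-1) ^ J)
      + (∑ n ∈ (range (N + 1)).erase (J + 1), f n J + ∑ j ∈ range (J + 1), g N j) := by ring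
  rw [e]
  exact norm_add_le h3 (norm_add_le h1 h2)

end

end Pool.Agent.X234.SC
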