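import Pool.Agent.X234.SC.WZ

/-!
# `p`-adic estimates for the terms of the WZ pair
-/

namespace Pool.Agent.X234.SC

open Finset

/-- `1/p` -/
abbrev dl (p : ℕ) : ℚ := (p : ℚ)⁻¹

section
variable {p : ℕ} [hp : Fact p.Prime]

theorem dl_pos : 0 < dl p := inv_pos.mpr (by exact_mod_cast hp.out.pos)

theorem dl_le_one : dl p ≤ 1 := inv_le_one_of_one_le₀ (by exact_mod_cast hp.out.one_lt.le)

theorem norm_pow (x : ℚ) (n : ℕ) : padicNorm p (x ^ n) = padicNorm p x ^ n := by
  induction n with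
  | zero => simp
  | succ n ih => rw [pow_succ, padicNorm.mul, ih, pow_succ]

theorem norm_p : padicNorm p (p : ℚ) = dl p := padicNorm.padicNorm_p_of_prime

theorem norm_q (r : ℕ) : padicNorm p ((p ^ r : ℕ) : ℚ) = dl p ^ r := by
  push_cast; rw [norm_pow, norm_p]

theorem norm_nat_le (n : ℕ) : padicNorm p (n : ℚ) ≤ 1 := padicNorm.of_nat n

theorem norm_cb_le (n : ℕ) : padicNorm p (cb n) ≤ 1 := norm_nat_le _

theorem norm_int_le (z : ℤ) : padicNorm p (z : ℚ) ≤ 1 := padicNorm.of_int z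

theorem norm_two (hp2 : p ≠ 2) : padicNorm p (2 : ℚ) = 1 := by
  have := (padicNorm.nat_eq_one_iff (p := p) 2).mpr (by
    intro h
    exact hp2 ((Nat.prime_dvd_prime_iff_eq hp.out Nat.prime_two).mp h))
  exact_mod_cast this

theorem norm_four (hp2 : p ≠ 2) : padicNorm p (4 : ℚ) = 1 := by
  rw [show (4 : ℚ) = 2 ^ 2 by norm_num, norm_pow, norm_two hp2, one_pow]

theorem norm_sixteen (hp2 : p ≠ 2) : padicNorm p (16 : ℚ) = 1 := by
  rw [show (16 : ℚ) = 2 ^ 4 by norm_num, norm_pow, norm_two hp2, one_pow]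

theorem norm_neg_one_pow (n : ℕ) : padicNorm p ((-1 : ℚ) ^ n) = 1 := by
  rw [norm_pow, padicNorm.neg, padicNorm.one, one_pow]

theorem norm_dvd {n : ℕ} (h : p ∣ n) : padicNorm p (n : ℚ) ≤ dl p := by
  have h1 : ((p ^ 1 : ℕ) : ℤ) ∣ (n : ℤ) := by rw [pow_one]; exact_mod_cast h
  have := (padicNorm.dvd_iff_norm_le (p := p) (n := 1) (z := (n : ℤ))).mp h1
  simpa using this

/-- no base-`p` carry-free choice -/
theorem dvd_choose {r a b : ℕ} (hab : a < b) (hb : b < p ^ r) : p ∣ (p ^ r + a).choose b := by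
  rw [Nat.add_choose_eq]
  apply Finset.dvd_sum
  rintro ⟨i, k⟩ hik
  have hik' : i + k = b := by simpa using hik
  simp only
  rcases Nat.eq_zero_or_pos i with h | h
  · subst h
    rw [Nat.choose_eq_zero_of_lt (show a < k by omega), mul_zero]
    exact dvd_zero _
  · exact Dvd.dvd.mul_right (hp.out.dvd_choose_pow (by omega) (by omega)) _

theorem norm_cb_ge {r j : ℕ} (hr : 1 ≤ r) (h : 2 * j < p ^ r) :
    dl p ^ (r - 1) ≤ padicNorm p (cb j) := by
  have hne := cb_ne j
  unfold padicNorm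
  rw [if_neg hne]
  have h1 : padicValRat p (cb j) = ((Nat.centralBinom j).factorization p : ℤ) := by
    unfold cb
    rw [padicValRat.of_nat, Nat.factorization_def _ hp.out]
  rw [h1]
  have h2 : (Nat.centralBinom j).factorization p ≤ r - 1 := by
    rcases Nat.eq_zero_or_pos j with hj | hj
    · subst hj; simp
    · have h3 : (Nat.centralBinom j).factorization p ≤ Nat.log p (2 * j) :=
        Nat.factorization_choose_le_log
      have h4 : Nat.log p (2 * j) < r := Nat.log_lt_of_lt_pow (by omega) h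
      omega
  rw [zpow_neg, zpow_natCast]
  have hp1 : (1 : ℚ) ≤ p := by exact_mod_cast hp.out.one_lt.le
  unfold dl
  rw [inv_pow]
  apply inv_anti₀ (by positivity)
  exact pow_le_pow_right₀ hp1 h2

end

section
variable {p : ℕ} [hp : Fact p.Prime] {r J : ℕ}

theorem norm_q_add_one (hr : 1 ≤ r) : padicNorm p (((p ^ r + 1 : ℕ)) : ℚ) = 1 := by
  rw [padicNorm.nat_eq_one_iff]
  intro h
  have h1 : p ∣ p ^ r := dvd_pow_self p (by omega)
  have := (Nat.dvd_add_right h1).mp h
  exact hp.out.one_lt.ne' (Nat.dvd_one.mp this)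

theorem norm_J_succ (hr : 1 ≤ r) (hq : p ^ r = 2 * J + 1) :
    padicNorm p ((J : ℚ) + 1) = 1 := by
  have h : p ∣ J + 1 → False := by
    intro h
    have h1 : p ∣ p ^ r := dvd_pow_self p (by omega)
    have h2 : p ∣ p ^ r + 1 := by
      rw [show p ^ r + 1 = 2 * (J + 1) by omega]; exact Dvd.dvd.mul_left h 2
    have := (Nat.dvd_add_right h1).mp h2
    exact hp.out.one_lt.ne' (Nat.dvd_one.mp this)
  have := (padicNorm.nat_eq_one_iff (p := p) (J + 1)).mpr h
  push_cast at this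
  exact this

/-- central binomial at `(q+1)/2` -/
theorem norm_cb_N0 (hp2 : p ≠ 2) (hr : 1 ≤ r) (hq : p ^ r = 2 * J + 1) :
    padicNorm p (cb (J + 1)) ≤ dl p ^ r := by
  rw [cb_succ, padicNorm.div, norm_J_succ hr hq, div_one, padicNorm.mul, padicNorm.mul,
    norm_two hp2, one_mul]
  have h1 : (2 * (J : ℚ) + 1) = ((p ^ r : ℕ) : ℚ) := by rw [hq]; push_cast; ring
  rw [h1, norm_q]
  exact mul_le_of_le_one_right (pow_nonneg dl_pos.le _) (norm_cb_le _)

/-- central binomial at `q - 1` -/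
theorem norm_cb_N1 (hp2 : p ≠ 2) (hr : 1 ≤ r) (hq : p ^ r = 2 * J + 1) :
    padicNorm p (cb (2 * J)) ≤ dl p ^ r := by
  have h := cb_succ (2 * J)
  have hq0 : ((2 * J : ℕ) : ℚ) + 1 = ((p ^ r : ℕ) : ℚ) := by rw [hq]; push_cast; ring
  rw [hq0] at h
  have hu : padicNorm p (2 * ((2 * J : ℕ) : ℚ) + 1 + 0) = 1 := by
    have hnd : ¬ p ∣ 2 * (2 * J) + 1 := by
      intro h0
      have h1 : p ∣ p ^ r := dvd_pow_self p (by omega)
      have h2 : 2 * (p ^ r) = (2 * (2 * J) + 1) + 1 := by rw [hq]; ring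
      have h3 : p ∣ (2 * (2 * J) + 1) + 1 := by rw [← h2]; exact Dvd.dvd.mul_left h1 2
      have := (Nat.dvd_add_right h0).mp h3
      exact hp.out.one_lt.ne' (Nat.dvd_one.mp this)
    have := (padicNorm.nat_eq_one_iff (p := p) (2 * (2 * J) + 1)).mpr hnd
    push_cast at this ⊢
    rw [add_zero]
    exact this
  rw [add_zero] at hu
  have hqne : ((p ^ r : ℕ) : ℚ) ≠ 0 := by
    have : p ^ r ≠ 0 := pow_ne_zero _ hp.out.ne_zero
    exact_mod_cast this
  have hmul : cb (2 * J + 1) * ((p ^ r : ℕ) : ℚ) = 2 * (2 * ((2 * J : ℕ) : ℚ) + 1) * cb (2 * J) := by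
    rw [h]; field_simp
  have hn := congrArg (padicNorm p) hmul
  rw [padicNorm.mul, padicNorm.mul, padicNorm.mul, norm_q, norm_two hp2, hu, one_mul, one_mul] at hn
  rw [← hn]
  exact mul_le_of_le_one_left (pow_nonneg dl_pos.le _) (norm_cb_le _)

/-- general bound for `g` -/
theorem norm_g_le (hp2 : p ≠ 2) (hr : 1 ≤ r) {n j : ℕ} (hj : 2 * j < p ^ r)
    (h1 : padicNorm p (cb n) ≤ dl p ^ r)
    (h2 : padicNorm p (cb (n + j) * ((n + j).choose (2 * j) : ℚ)) ≤ dl p) :
    padicNorm p (g n j) ≤ dl p ^ (r + 2) := by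
  have e : g n j = (-(-1) ^ (n + j)) * cb n ^ 2 * (cb (n + j) * ((n + j).choose (2 * j) : ℚ)) *
      4 ^ j / (cb j * 16 ^ n * 4 ^ n) := by unfold g; ring
  rw [e, padicNorm.div]
  simp only [padicNorm.mul, padicNorm.neg, padicNorm.one, norm_pow, norm_four hp2,
    norm_sixteen hp2, one_pow, mul_one, one_mul]
  rw [← padicNorm.mul]
  have h3 := norm_cb_ge hr hj
  have hpos : 0 < padicNorm p (cb j) := lt_of_lt_of_le (pow_pos dl_pos _) h3
  rw [div_le_iff₀ hpos]
  have h4 : padicNorm p (cb n) ^ 2 ≤ (dl p ^ r) ^ 2 :=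
    pow_le_pow_left₀ (padicNorm.nonneg _) h1 2
  calc padicNorm p (cb n) ^ 2 * padicNorm p (cb (n + j) * ((n + j).choose (2 * j) : ℚ))
      ≤ (dl p ^ r) ^ 2 * dl p := mul_le_mul h4 h2 (padicNorm.nonneg _) (by positivity)
    _ = dl p ^ (r + 2) * dl p ^ (r - 1) := by
        rw [← pow_mul, ← pow_succ, ← pow_add]; congr 1; omega
    _ ≤ dl p ^ (r + 2) * padicNorm p (cb j) :=
        mul_le_mul_of_nonneg_left h3 (pow_nonneg dl_pos.le _)

theorem norm_g_N0 (hp2 : p ≠ 2) (hr : 1 ≤ r) (hq : p ^ r = 2 * J + 1) {j : ℕ} (hj : j ≤ J) :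
    padicNorm p (g (J + 1) j) ≤ dl p ^ (r + 2) := by
  apply norm_g_le hp2 hr (by omega) (norm_cb_N0 hp2 hr hq)
  rw [padicNorm.mul]
  rcases Nat.lt_or_ge j J with h | h
  · have hd : p ∣ (2 * (J + 1 + j)).choose (J + 1 + j) := by
      have := dvd_choose (p := p) (r := r) (a := 2 * (J + 1 + j) - p ^ r) (b := J + 1 + j)
        (by omega) (by omega)
      rwa [show p ^ r + (2 * (J + 1 + j) - p ^ r) = 2 * (J + 1 + j) by omega] at this
    have h1 : padicNorm p (cb (J + 1 + j)) ≤ dl p := norm_dvd (p := p) hd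
    calc padicNorm p (cb (J + 1 + j)) * _ ≤ dl p * 1 :=
          mul_le_mul h1 (norm_nat_le _) (padicNorm.nonneg _) dl_pos.le
      _ = dl p := mul_one _
  · have : j = J := by omega
    subst this
    have hd : p ∣ (j + 1 + j).choose (2 * j) := by
      have e1 : j + 1 + j = 2 * j + 1 := by ring
      rw [e1, Nat.choose_succ_self_right, ← hq]
      exact dvd_pow_self p (by omega)
    have h1 := norm_dvd (p := p) hd
    calc padicNorm p (cb (j + 1 + j)) * _ ≤ 1 * dl p :=
          mul_le_mul (norm_cb_le _) h1 (padicNorm.nonneg _) zero_le_one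
      _ = dl p := one_mul _

theorem norm_g_N1 (hp2 : p ≠ 2) (hr : 1 ≤ r) (hq : p ^ r = 2 * J + 1) {j : ℕ} (hj : j ≤ J) :
    padicNorm p (g (2 * J) j) ≤ dl p ^ (r + 2) := by
  apply norm_g_le hp2 hr (by omega) (norm_cb_N1 hp2 hr hq)
  rw [padicNorm.mul]
  rcases Nat.eq_zero_or_pos j with h | h
  · subst h
    have h1 := norm_cb_N1 hp2 hr hq
    rw [Nat.add_zero]
    have h2 : dl p ^ r ≤ dl p := by
      calc dl p ^ r ≤ dl p ^ 1 := pow_le_pow_of_le_one dl_pos.le dl_le_one hr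
        _ = dl p := pow_one _
    calc padicNorm p (cb (2 * J)) * _ ≤ dl p * 1 :=
          mul_le_mul (h1.trans h2) (norm_nat_le _) (padicNorm.nonneg _) dl_pos.le
      _ = dl p := mul_one _
  · have hd : p ∣ (2 * J + j).choose (2 * j) := by
      have := dvd_choose (p := p) (r := r) (a := j - 1) (b := 2 * j) (by omega) (by omega)
      rwa [show p ^ r + (j - 1) = 2 * J + j by omega] at this
    have h1 := norm_dvd (p := p) hd
    calc padicNorm p (cb (2 * J + j)) * _ ≤ 1 * dl p :=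
          mul_le_mul (norm_cb_le _) h1 (padicNorm.nonneg _) zero_le_one
      _ = dl p := one_mul _

/-- `t n` is divisible by `p` for `(q+1)/2 < n < q` -/
theorem norm_t_le (hp2 : p ≠ 2) (hq : p ^ r = 2 * J + 1) {n : ℕ} (h1 : J + 1 < n)
    (h2 : n < p ^ r) : padicNorm p (t n) ≤ dl p := by
  obtain ⟨l, rfl⟩ : ∃ l, n = l + 1 := ⟨n - 1, by omega⟩
  -- `t (l+1) = - 2 * catalan / 4^(l+1)`
  have hd1 : p ∣ (2 * l).choose l := by
    have := dvd_choose (p := p) (r := r) (a := 2 * l - p ^ r) (b := l) (by omega) (by omega)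
    rwa [show p ^ r + (2 * l - p ^ r) = 2 * l by omega] at this
  have hd2 : p ∣ (2 * l).choose (l + 1) := by
    have := dvd_choose (p := p) (r := r) (a := 2 * l - p ^ r) (b := l + 1) (by omega) (by omega)
    rwa [show p ^ r + (2 * l - p ^ r) = 2 * l by omega] at this
  have hcat : ((2 * l).choose (l + 1) : ℚ) * (l + 1) = cb l * l := by
    have := Nat.choose_succ_right_eq (2 * l) l
    rw [show 2 * l - l = l by omega] at this
    unfold cb
    rw [Nat.centralBinom_eq_two_mul_choose]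
    exact_mod_cast this
  have hl : ((l : ℚ) + 1) ≠ 0 := by positivity
  have hl2 : (2 * (l : ℚ) + 1) ≠ 0 := by positivity
  have e : t (l + 1) = (-2) * (cb l - ((2 * l).choose (l + 1) : ℚ)) / 4 ^ (l + 1) := by
    have e1 : ((2 * l).choose (l + 1) : ℚ) = cb l * l / (l + 1) := by
      rw [eq_div_iff hl]; exact hcat
    rw [e1]
    unfold t
    rw [cb_succ]
    push_cast
    have ho'' : (2 * ((l : ℚ) + 1) - 1) = 2 * l + 1 := by ring
    rw [ho'']
    field_simp
    ring
  rw [e, padicNorm.div, norm_pow, norm_four hp2, one_pow, div_one, padicNorm.mul, padicNorm.neg,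
    norm_two hp2, one_mul]
  refine padicNorm.sub.trans (max_le ?_ ?_)
  · unfold cb
    rw [Nat.centralBinom_eq_two_mul_choose]
    exact norm_dvd hd1
  · exact norm_dvd hd2

/-- `cb J` is a unit -/
theorem norm_cb_J (_hr : 1 ≤ r) (hq : p ^ r = 2 * J + 1) : padicNorm p (cb J) = 1 := by
  -- `p ∤ C(2J, J)` since `C(q-1, i) ≡ ± 1`
  have key : ∀ i, i ≤ 2 * J → ¬ p ∣ (2 * J).choose i := by
    intro i
    induction i with
    | zero => intro _ h; rw [Nat.choose_zero_right] at h; exact hp.out.one_lt.ne' (Nat.dvd_one.mp h)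
    | succ i ih =>
      intro hi h
      apply ih (by omega)
      have h1 : p ∣ (2 * J + 1).choose (i + 1) := by
        rw [← hq]; exact hp.out.dvd_choose_pow (by omega) (by omega)
      rw [Nat.choose_succ_succ] at h1
      exact (Nat.dvd_add_left h).mp h1
  unfold cb
  rw [Nat.centralBinom_eq_two_mul_choose, padicNorm.nat_eq_one_iff]
  exact key J (by omega)

theorem norm_f_le (hp2 : p ≠ 2) (hr : 1 ≤ r) (hq : p ^ r = 2 * J + 1) {n : ℕ} (h1 : J + 1 < n)
    (h2 : n < p ^ r) : padicNorm p (f n J) ≤ dl p ^ (r + 2) := by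
  have ht := norm_t_le hp2 hq h1 h2
  have hc : ((n + J).choose (2 * J) : ℚ) * ((n : ℚ) - J)
      = ((n + J).choose (2 * J + 1) : ℚ) * ((p ^ r : ℕ) : ℚ) := by
    have := Nat.choose_succ_right_eq (n + J) (2 * J)
    rw [show n + J - 2 * J = n - J by omega] at this
    have h3 := congrArg (Nat.cast (R := ℚ)) this
    rw [hq]
    push_cast [Nat.cast_sub (show J ≤ n by omega)] at h3 ⊢
    linarith
  have e : f n J = (-1) ^ (n + J) * 2 * (4 * n - 1) * t n ^ 2 * (4 ^ J / 4 ^ n) *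
      cb (n + J) * (((n + J).choose (2 * J + 1) : ℚ) * ((p ^ r : ℕ) : ℚ)) / cb J := by
    rw [← hc]; unfold f; ring
  rw [e, padicNorm.div, norm_cb_J hr hq, div_one]
  simp only [padicNorm.mul, padicNorm.div, padicNorm.neg, padicNorm.one, norm_pow,
    norm_four hp2, norm_two hp2, one_pow, mul_one, one_mul, div_one, norm_q]
  have h4 : padicNorm p (4 * (n : ℚ) - 1) ≤ 1 := by
    have := norm_int_le (p := p) (4 * n - 1)
    push_cast at this
    exact this
  have h5 : padicNorm p (t n) ^ 2 ≤ dl p ^ 2 := pow_le_pow_left₀ (padicNorm.nonneg _) ht 2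
  calc padicNorm p (4 * (n : ℚ) - 1) * padicNorm p (t n) ^ 2 * padicNorm p (cb (n + J)) *
      (padicNorm p ((n + J).choose (2 * J + 1) : ℚ) * dl p ^ r)
      ≤ 1 * dl p ^ 2 * 1 * (1 * dl p ^ r) := by
        apply mul_le_mul _ _ (mul_nonneg (padicNorm.nonneg _) (pow_nonneg dl_pos.le _))
          (by positivity)
        · exact mul_le_mul (mul_le_mul h4 h5 (by positivity) zero_le_one) (norm_cb_le _)
            (padicNorm.nonneg _) (by positivity)
        · exact mul_le_mul_of_nonneg_right (norm_nat_le _) (pow_nonneg dl_pos.le _)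
    _ = dl p ^ (r + 2) := by rw [one_mul, mul_one, one_mul, ← pow_add]; congr 1; ring

end

end Pool.Agent.X234.SC
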