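import Mathlib

/-!
# WZ pair for the sum `∑ (-1)^k (4k-1) (-1/2)_k^3 / k!^3`
-/

namespace Pool.Agent.X234.SC

open Finset

/-- The rising factorial `(a)_k`. -/
def rf (a : ℚ) (k : ℕ) : ℚ := ∏ i ∈ range k, (a + i)

/-- `S_m(N)`. -/
def S (m N : ℕ) : ℚ :=
  ∑ k ∈ range (N + 1), (-1) ^ k * (4 * (k : ℚ) - 1) ^ m * (rf (-1 / 2) k) ^ 3 / (k.factorial : ℚ) ^ 3

/-- `x ≡ y (mod p ^ n)` for rationals: `x - y` is zero or has `p`-adic valuation at least `n`. -/
def CongrMod (p n : ℕ) (x y : ℚ) : Prop := x - y = 0 ∨ (n : ℤ) ≤ padicValRat p (x - y)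

/-- central binomial as a rational -/
def cb (n : ℕ) : ℚ := (Nat.centralBinom n : ℚ)

theorem cb_zero : cb 0 = 1 := by simp [cb]

theorem cb_ne (n : ℕ) : cb n ≠ 0 := by
  unfold cb
  exact_mod_cast Nat.centralBinom_ne_zero n

theorem cb_succ (n : ℕ) : cb (n + 1) = 2 * (2 * n + 1) * cb n / (n + 1) := by
  have h := Nat.succ_mul_centralBinom_succ n
  have h' : ((n : ℚ) + 1) * cb (n + 1) = 2 * (2 * n + 1) * cb n := by
    unfold cb; exact_mod_cast h
  have : ((n : ℚ) + 1) ≠ 0 := by positivity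
  field_simp
  linarith

/-- `(-1/2)_n / n!` -/
def t (n : ℕ) : ℚ := -(cb n) / (4 ^ n * (2 * n - 1))

theorem odd_ne (n : ℕ) : (2 * (n : ℚ) - 1) ≠ 0 := by
  intro h
  have h1 : (2 * (n : ℚ)) = 1 := by linarith
  have h2 : 2 * n = 1 := by exact_mod_cast h1
  omega

theorem t_eq (n : ℕ) : rf (-1 / 2) n / (n.factorial : ℚ) = t n := by
  induction n with
  | zero => simp [rf, t, cb_zero]
  | succ n ih =>
    have h1 : rf (-1 / 2) (n + 1) = rf (-1 / 2) n * (-1 / 2 + n) := by
      unfold rf; rw [prod_range_succ]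
    have hf : ((n.factorial : ℚ)) ≠ 0 := by exact_mod_cast n.factorial_ne_zero
    have hn : ((n : ℚ) + 1) ≠ 0 := by positivity
    have ho := odd_ne n
    have ho' := odd_ne (n + 1)
    rw [h1, Nat.factorial_succ]
    push_cast
    have h2 : rf (-1 / 2) n = t n * n.factorial := by rw [← ih]; field_simp
    rw [h2]
    unfold t
    rw [cb_succ]
    push_cast at ho' ⊢
    have ho'' : (2 * ((n : ℚ) + 1) - 1) = 2 * n + 1 := by ring
    rw [ho''] at ho' ⊢
    field_simp
    ring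

theorem S_eq (m N : ℕ) : S m N = ∑ k ∈ range (N + 1), (-1) ^ k * (4 * (k : ℚ) - 1) ^ m * t k ^ 3 := by
  unfold S
  apply sum_congr rfl
  intro k _
  rw [← t_eq]
  rw [div_pow]
  ring

theorem t_succ (n : ℕ) : t (n + 1) * (n + 1) = t n * (2 * n - 1) / 2 := by
  unfold t
  rw [cb_succ]
  have hn : ((n : ℚ) + 1) ≠ 0 := by positivity
  have ho := odd_ne n
  have ho' := odd_ne (n + 1)
  push_cast at ho' ⊢
  have ho'' : (2 * ((n : ℚ) + 1) - 1) = 2 * n + 1 := by ring
  rw [ho''] at ho' ⊢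
  field_simp
  ring

/-! ### the WZ pair -/

/-- first member -/
def f (n j : ℕ) : ℚ := (-1) ^ (n + j) * 2 * (4 * n - 1) * t n ^ 2 * (4 ^ j / 4 ^ n) *
  cb (n + j) * ((n + j).choose (2 * j) : ℚ) * ((n : ℚ) - j) / cb j

/-- second member -/
def g (n j : ℕ) : ℚ := -(-1) ^ (n + j) * cb n ^ 2 * cb (n + j) * ((n + j).choose (2 * j) : ℚ) *
  4 ^ j / (cb j * 16 ^ n * 4 ^ n)

theorem wz_zero (N : ℕ) :
    ∑ n ∈ range (N + 1), ((-1) ^ n * (4 * (n : ℚ) - 1) * t n ^ 3 - f n 0) = g N 0 := by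
  induction N with
  | zero =>
    simp [f, g, t, cb_zero]
  | succ N ih =>
    rw [sum_range_succ, ih]
    unfold f g t
    simp only [Nat.mul_zero, Nat.choose_zero_right, Nat.add_zero, cb_zero, pow_zero, Nat.cast_zero,
      Nat.cast_one]
    rw [cb_succ]
    have hn : ((N : ℚ) + 1) ≠ 0 := by positivity
    have ho' := odd_ne (N + 1)
    push_cast at ho' ⊢
    have ho'' : (2 * ((N : ℚ) + 1) - 1) = 2 * N + 1 := by ring
    rw [ho''] at ho' ⊢
    have h16 : (16 : ℚ) ^ N = 4 ^ N * 4 ^ N := by rw [← mul_pow]; norm_num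
    rw [pow_succ (16 : ℚ), h16]
    have h4 : (4 : ℚ) ^ N ≠ 0 := by positivity
    field_simp
    ring

/-- ratio of the binomials in `j` -/
theorem choose_ratio (n j : ℕ) : ((n + j + 1).choose (2 * j + 2) : ℚ) =
    ((n + j).choose (2 * j) : ℚ) * ((n + j + 1) * ((n : ℚ) - j)) / ((2 * j + 1) * (2 * j + 2)) := by
  have h1 := Nat.add_one_mul_choose_eq (n + j) (2 * j + 1)
  have h2 := Nat.choose_succ_right_eq (n + j) (2 * j)
  have h1' : ((n : ℚ) + j + 1) * ((n + j).choose (2 * j + 1) : ℚ)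
      = ((n + j + 1).choose (2 * j + 2) : ℚ) * (2 * j + 2) := by exact_mod_cast h1
  have hp1 : (2 * (j : ℚ) + 1) ≠ 0 := by positivity
  have hp2 : (2 * (j : ℚ) + 2) ≠ 0 := by positivity
  have h2' : ((n + j).choose (2 * j + 1) : ℚ) * (2 * j + 1)
      = ((n + j).choose (2 * j) : ℚ) * ((n : ℚ) - j) := by
    rcases le_or_gt j n with h | h
    · have e : n + j - 2 * j = n - j := by omega
      rw [e] at h2
      have := congrArg (Nat.cast (R := ℚ)) h2
      push_cast [Nat.cast_sub h] at this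
      exact this
    · rw [Nat.choose_eq_zero_of_lt (show n + j < 2 * j by omega),
        Nat.choose_eq_zero_of_lt (show n + j < 2 * j + 1 by omega)]
      simp
  rw [eq_div_iff (mul_ne_zero hp1 hp2)]
  linear_combination (-(2 * (j : ℚ) + 1)) * h1' + ((n : ℚ) + j + 1) * h2'

/-- ratio of the binomials in `n` -/
theorem choose_ratio' (n j : ℕ) : ((n + j).choose (2 * j) : ℚ) * (n + j + 1) =
    ((n + 1 + j).choose (2 * j) : ℚ) * ((n : ℚ) + 1 - j) := by
  have h := Nat.choose_mul_succ_eq (n + j) (2 * j)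
  rw [show n + 1 + j = n + j + 1 by ring]
  rcases le_or_gt j (n + 1) with h' | h'
  · have e : n + j + 1 - 2 * j = n + 1 - j := by omega
    rw [e] at h
    have := congrArg (Nat.cast (R := ℚ)) h
    push_cast [Nat.cast_sub h'] at this
    linarith
  · rw [Nat.choose_eq_zero_of_lt (show n + j < 2 * j by omega),
      Nat.choose_eq_zero_of_lt (show n + j + 1 < 2 * j by omega)]
    simp

theorem wz_succ (j N : ℕ) : ∑ n ∈ range (N + 1), (f n j - f n (j + 1)) = g N (j + 1) := by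
  induction N with
  | zero =>
    rw [zero_add, sum_range_one]
    have h1 : f 0 j = 0 := by
      unfold f
      rcases Nat.eq_zero_or_pos j with h | h
      · subst h; simp
      · rw [Nat.choose_eq_zero_of_lt (show 0 + j < 2 * j by omega)]; simp
    have h2 : f 0 (j + 1) = 0 := by
      unfold f
      rw [Nat.choose_eq_zero_of_lt (show 0 + (j + 1) < 2 * (j + 1) by omega)]; simp
    have h3 : g 0 (j + 1) = 0 := by
      unfold g
      rw [Nat.choose_eq_zero_of_lt (show 0 + (j + 1) < 2 * (j + 1) by omega)]; simp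
    rw [h1, h2, h3, sub_zero]
  | succ N ih =>
    rw [sum_range_succ, ih]
    -- everything in terms of values at `(N+1, j)`
    have r1 : ((N + 1 + (j + 1)).choose (2 * (j + 1)) : ℚ) =
        ((N + 1 + j).choose (2 * j) : ℚ) * ((N + 1 + j + 1) * ((N : ℚ) + 1 - j))
          / ((2 * j + 1) * (2 * j + 2)) := by
      have := choose_ratio (N + 1) j
      rw [show N + 1 + (j + 1) = N + 1 + j + 1 by ring, show 2 * (j + 1) = 2 * j + 2 by ring, this]
      push_cast; ring
    have r2 : ((N + (j + 1)).choose (2 * (j + 1)) : ℚ) =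
        ((N + 1 + j).choose (2 * j) : ℚ) * (((N : ℚ) + 1 - j) * ((N : ℚ) - j))
          / ((2 * j + 1) * (2 * j + 2)) := by
      have h1 := choose_ratio N j
      have h2 := choose_ratio' N j
      rw [show N + (j + 1) = N + j + 1 by ring, show 2 * (j + 1) = 2 * j + 2 by ring, h1]
      have hp1 : (2 * (j : ℚ) + 1) ≠ 0 := by positivity
      have hp2 : (2 * (j : ℚ) + 2) ≠ 0 := by positivity
      rw [div_left_inj' (mul_ne_zero hp1 hp2)]
      linear_combination ((N : ℚ) - j) * h2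
    have r3 : cb (N + 1 + (j + 1)) = 2 * (2 * ((N : ℚ) + 1 + j) + 1) * cb (N + 1 + j)
        / ((N : ℚ) + 1 + j + 1) := by
      rw [show N + 1 + (j + 1) = (N + 1 + j) + 1 by ring, cb_succ]
      push_cast; ring
    have r4 : cb (N + (j + 1)) = cb (N + 1 + j) := by
      rw [show N + (j + 1) = N + 1 + j by ring]
    have r5 : cb (j + 1) = 2 * (2 * (j : ℚ) + 1) * cb j / ((j : ℚ) + 1) := cb_succ j
    have r6 : cb (N + 1) = 2 * (2 * (N : ℚ) + 1) * cb N / ((N : ℚ) + 1) := cb_succ N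
    have s1 : (-1 : ℚ) ^ (N + 1 + (j + 1)) = (-1) ^ (N + j) := by
      rw [show N + 1 + (j + 1) = N + j + 2 by ring, pow_add]; norm_num
    have s2 : (-1 : ℚ) ^ (N + (j + 1)) = -(-1) ^ (N + j) := by
      rw [show N + (j + 1) = N + j + 1 by ring, pow_succ]; ring
    have s3 : (-1 : ℚ) ^ (N + 1 + j) = -(-1) ^ (N + j) := by
      rw [show N + 1 + j = N + j + 1 by ring, pow_succ]; ring
    unfold f g t
    rw [r1, r2, r3, r4, r5, r6, s1, s2, s3]
    have hn : ((N : ℚ) + 1) ≠ 0 := by positivity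
    have hj : ((j : ℚ) + 1) ≠ 0 := by positivity
    have hj1 : (2 * (j : ℚ) + 1) ≠ 0 := by positivity
    have hj2 : (2 * (j : ℚ) + 2) ≠ 0 := by positivity
    have hnj : ((N : ℚ) + 1 + j + 1) ≠ 0 := by positivity
    have hn1 : (2 * (N : ℚ) + 1) ≠ 0 := by positivity
    push_cast
    have ho'' : (2 * ((N : ℚ) + 1) - 1) = 2 * N + 1 := by ring
    rw [ho'']
    have h16 : (16 : ℚ) ^ N = 4 ^ N * 4 ^ N := by rw [← mul_pow]; norm_num
    rw [pow_succ (16 : ℚ), h16, pow_succ (4 : ℚ) N, pow_succ (4 : ℚ) j]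
    have h4 : (4 : ℚ) ^ N ≠ 0 := by positivity
    have h4j : (4 : ℚ) ^ j ≠ 0 := by positivity
    have hcj := cb_ne j
    have hcN := cb_ne N
    field_simp
    ring

theorem wz_sum (N J : ℕ) : ∑ n ∈ range (N + 1), (-1) ^ n * (4 * (n : ℚ) - 1) * t n ^ 3
    = ∑ n ∈ range (N + 1), f n J + ∑ j ∈ range (J + 1), g N j := by
  induction J with
  | zero =>
    have := wz_zero N
    rw [sum_sub_distrib] at this
    rw [zero_add, sum_range_one, ← this]; ring
  | succ J ih =>
    have := wz_succ J N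
    rw [sum_sub_distrib] at this
    rw [ih, sum_range_succ _ (J + 1), ← this]; ring

end Pool.Agent.X234.SC
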